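import Pool.Agent.Lib.MP_a1de5b_al.H74.Uni
import Pool.Agent.Lib.MP_a1de5b_al.H74.Hyper

/-!
# A categorical periodic locally soluble group with a Sylow subgroup that is not Chernikov
-/

set_option autoImplicit false

namespace Pool.Agent.Results.MP_a1de5b_al.CategoricalGroup

universe u v

/-- `A` and `B` are locally equivalent: every finitely generated subgroup of `A` is isomorphic to
a subgroup of `B`, and every finitely generated subgroup of `B` is isomorphic to a subgroup of
`A`. -/
def LocallyEquivalent (A : Type u) [Group A] (B : Type v) [Group B] : Prop :=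
  (∀ K : Subgroup A, K.FG → ∃ L : Subgroup B, Nonempty (K ≃* L)) ∧
    (∀ L : Subgroup B, L.FG → ∃ K : Subgroup A, Nonempty (L ≃* K))

/-- `A` is categorical: every group `B` (in the universe `v`) that is locally equivalent to `A`
is isomorphic to `A`. -/
def Categorical (A : Type u) [Group A] : Prop :=
  ∀ (B : Type v) [Group B], LocallyEquivalent A B → Nonempty (A ≃* B)

/-- `A` is hyperfinite: it has an ascending series `1 = f 0 ≤ f 1 ≤ ⋯ ≤ f γ = A`, indexed by the
ordinals up to `γ`, of normal subgroups of `A`, with `f α` the union of the `f β`, `β < α`, for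
every limit ordinal `α ≤ γ`, and with every factor `f (α + 1) / f α` finite. -/
def Hyperfinite (A : Type u) [Group A] : Prop :=
  ∃ (γ : Ordinal.{u}) (f : Ordinal.{u} → Subgroup A), f 0 = ⊥ ∧ f γ = ⊤ ∧
    (∀ α ≤ γ, (f α).Normal) ∧
    (∀ α < γ, f α ≤ f (α + 1) ∧ (f α).relIndex (f (α + 1)) ≠ 0) ∧
    (∀ α ≤ γ, Order.IsSuccLimit α → (f α : Set A) = {x | ∃ β < α, x ∈ f β})

/-- The quasicyclic group `C_{p^∞}`: the complex roots of unity of `p`-power order. -/
def quasicyclic (p : ℕ) : Subgroup ℂˣ where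
  carrier := {z | ∃ k : ℕ, z ^ p ^ k = 1}
  one_mem' := ⟨0, one_pow _⟩
  mul_mem' := by
    rintro a b ⟨k, hk⟩ ⟨l, hl⟩
    refine ⟨k + l, ?_⟩
    rw [mul_pow, pow_add, pow_mul, hk, one_pow, one_mul, mul_comm (p ^ k), pow_mul, hl, one_pow]
  inv_mem' := by
    rintro a ⟨k, hk⟩
    exact ⟨k, by rw [inv_pow, hk, inv_one]⟩

/-- `A` is a Chernikov group: it has a normal subgroup of finite index that is a direct product of
finitely many quasicyclic groups. -/
def IsChernikov (A : Type u) [Group A] : Prop :=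
  ∃ N : Subgroup A, N.Normal ∧ N.index ≠ 0 ∧ ∃ (n : ℕ) (p : Fin n → ℕ),
    (∀ i, (p i).Prime) ∧ Nonempty (N ≃* (∀ i, quasicyclic (p i)))

/-- A finite direct product of quasicyclic groups has finitely many elements of prime order. -/
lemma finite_prime_order {n : ℕ} (p : Fin n → ℕ) (hp : ∀ i, (p i).Prime) :
    {x : ∀ i, quasicyclic (p i) | (orderOf x).Prime}.Finite := by
  have h1 : ∀ i, {x : ∀ i, quasicyclic (p i) | x ^ p i = 1}.Finite := by
    intro i
    have := NeZero.mk (hp i).ne_zero
    have h2 : ∀ j, Finite {z : quasicyclic (p j) // z ^ p i = 1} := by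
      intro j
      apply Finite.of_injective
        (fun z => (⟨z.1.1, by
          rw [mem_rootsOfUnity]
          exact congrArg Subtype.val z.2⟩ : rootsOfUnity (p i) ℂ))
      intro a b hab
      have h : a.1.1 = b.1.1 := congrArg (fun w : rootsOfUnity (p i) ℂ => (w : ℂˣ)) hab
      exact Subtype.ext (Subtype.ext h)
    have h3 : Finite {x : ∀ i, quasicyclic (p i) // x ^ p i = 1} := by
      apply Finite.of_injective
        (fun x => fun j => (⟨x.1 j, congrFun x.2 j⟩ : {z : quasicyclic (p j) // z ^ p i = 1}))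
      intro a b hab
      apply Subtype.ext
      funext j
      exact congrArg Subtype.val (congrFun hab j)
    exact h3
  apply (Set.finite_iUnion h1).subset
  intro x hx
  have hx' : (orderOf x).Prime := hx
  have hne : x ≠ 1 := by
    intro h
    rw [h, orderOf_one] at hx'
    exact Nat.not_prime_one hx'
  obtain ⟨i, hi⟩ := Function.ne_iff.1 hne
  rw [Set.mem_iUnion]
  refine ⟨i, ?_⟩
  obtain ⟨k, hk⟩ := (x i).2
  have h4 : (x i) ^ p i ^ k = 1 := Subtype.ext hk
  have h5 : (x i) ^ orderOf x = 1 := by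
    rw [← Pi.pow_apply, pow_orderOf_eq_one]; rfl
  have h6 : orderOf (x i) ∣ p i ^ k := orderOf_dvd_of_pow_eq_one h4
  have h7 : orderOf (x i) ∣ orderOf x := orderOf_dvd_of_pow_eq_one h5
  rcases (Nat.dvd_prime hx').1 h7 with h8 | h8
  · exact absurd (orderOf_eq_one_iff.1 h8) hi
  · rw [h8] at h6
    have h9 : orderOf x = p i := (Nat.prime_dvd_prime_iff_eq hx' (hp i)).1
      (hx'.dvd_of_dvd_pow h6)
    change x ^ p i = 1
    rw [← h9, pow_orderOf_eq_one]

/-- **Categorical periodic locally soluble groups.** There is a countable periodic locally soluble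
group `G` that is categorical (with respect to all groups of any given universe) and hyperfinite
and that has, for some prime `p`, a Sylow `p`-subgroup which is not a Chernikov group. So
(i) does not imply (ii) in the question. -/
theorem result : ∃ (G : Type) (_ : Group G), Countable G ∧ (∀ g : G, IsOfFinOrder g) ∧
    (∀ K : Subgroup G, K.FG → Group.IsSolvable K) ∧ Categorical.{0, u} G ∧ Hyperfinite G ∧
    ∃ p : ℕ, p.Prime ∧ ∃ Q : Sylow p G, ¬ IsChernikov Q := by
  refine ⟨Lib.MP_a1de5b_al.G, inferInstance, Lib.MP_a1de5b_al.H74.G_countable,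
    Lib.MP_a1de5b_al.G_torsion, Lib.MP_a1de5b_al.G_locSolvable,
    fun B _ hB => Lib.MP_a1de5b_al.H74.G_categorical_all B hB.1 hB.2, ?_, ?_⟩
  · refine ⟨_, Lib.MP_a1de5b_al.H74.F, Lib.MP_a1de5b_al.H74.F_zero,
      Lib.MP_a1de5b_al.H74.F_top, fun α _ => Lib.MP_a1de5b_al.H74.F_normal α,
      fun α _ => ⟨Lib.MP_a1de5b_al.H74.F_mono (Order.le_succ α),
        Lib.MP_a1de5b_al.H74.F_succ α⟩, ?_⟩
    intro α _ hα
    ext x
    constructor
    · intro hx
      obtain ⟨β, hβ, hxβ⟩ := Lib.MP_a1de5b_al.H74.F_lim hα hx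
      exact ⟨β, hβ, hxβ⟩
    · rintro ⟨β, hβ, hxβ⟩
      exact Lib.MP_a1de5b_al.H74.F_mono hβ.le hxβ
  · obtain ⟨q, hq, Q, hQ⟩ := Lib.MP_a1de5b_al.not_chernikov
    refine ⟨q, hq, Q, ?_⟩
    rintro ⟨N, _, hN, n, p, hp, ⟨e⟩⟩
    apply hQ (N.map Q.toSubgroup.subtype)
    · have h1 : (N.map Q.toSubgroup.subtype).relIndex Q.toSubgroup = N.index := by
        unfold Subgroup.relIndex
        congr 1
        ext x
        rw [Subgroup.mem_subgroupOf, Subgroup.mem_map]
        constructor
        · rintro ⟨y, hy, hyx⟩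
          rwa [← Subtype.ext hyx]
        · intro hx
          exact ⟨x, hx, rfl⟩
      rw [h1]
      exact hN
    · have h2 := finite_prime_order p hp
      apply (h2.image (fun x => ((e.symm x : Q) : Lib.MP_a1de5b_al.G))).subset
      rintro x ⟨⟨y, hy, rfl⟩, hx⟩
      refine ⟨e ⟨y, hy⟩, ?_, ?_⟩
      · change (orderOf (e ⟨y, hy⟩)).Prime
        rw [MulEquiv.orderOf_eq, Subgroup.orderOf_mk]
        have h3 : orderOf ((Q.toSubgroup.subtype) y) = orderOf y :=
          Subgroup.orderOf_coe y
        rwa [h3] at hx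
      · simp

end Pool.Agent.Results.MP_a1de5b_al.CategoricalGroup
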